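import Pool.Agent.W619.Y.Stm2

/-! Effectivity for quotients of `Y × C 1 × ... × C n` (part EFF2 of project PG). -/

set_option autoImplicit false
set_option linter.overlappingInstances false
set_option linter.unusedSectionVars false

universe u v

open FF IntermediateField Pool.Agent.W619.PQ Pool.Agent.W619.PL Pool.Agent.W619.TW
  Pool.Agent.W603.LV Pool.Agent.W619.Y

namespace Pool.Agent.W721.PG.EFF2

section gen

variable {k L : Type*} [Field k] [Field L] [Algebra k L]

theorem dom_of_reg {v : Place k L} {f : L} (h : v.Reg f) : Dom v {1} 0 f := by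
  rcases h with h | h
  · exact Or.inl h
  · right
    exact ⟨1, by simp, one_ne_zero, by simpa using h⟩

theorem ge_prod0 {w : Place k L} {ι : Type*} (s : Finset ι) (f : ι → L)
    (h : ∀ i ∈ s, Ge w 0 (f i)) : Ge w 0 (∏ i ∈ s, f i) :=
  Finset.prod_induction f (Ge w 0) (fun a b ha hb => by simpa using ha.mul hb) Ge.one h

theorem der_sum {ι : Type*} (s : Finset ι) (v : ι → L) (D : ι → Derivation k L L) (z : L) :
    (∑ j ∈ s, v j • D j) z = ∑ j ∈ s, v j * D j z := by
  classical
  induction s using Finset.induction_on with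
  | empty => simp
  | insert a s ha ih =>
    rw [Finset.sum_insert ha, Finset.sum_insert ha]
    change v a * D a z + (∑ j ∈ s, v j • D j) z = _
    rw [ih]

end gen

section main

variable {k : Type v} {L : Type u} [Field k] [CharZero k] [Field L] [Algebra k L]

theorem alg_fixed (G : Subgroup (L ≃ₐ[k] L)) [Finite G] : Algebra.IsAlgebraic (fixedField G) L := by
  have := fixed_finite G
  infer_instance

/-- a transcendence basis of the fixed field -/
theorem exists_basis (K : IntermediateField k L) [Algebra.IsAlgebraic K L] (n : ℕ)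
    (hn : Algebra.trdeg k L = n) : Algebra.trdeg k K = n ∧
    ∃ z : Fin n → K, IsTranscendenceBasis k z := by
  obtain ⟨ι, z, hz⟩ := exists_isTranscendenceBasis' k K
  have hzL : IsTranscendenceBasis k (algebraMap K L ∘ z) := hz.algebraMap_comp
  have h1 := hzL.cardinalMk_eq_trdeg
  rw [hn] at h1
  have h2 : Cardinal.lift.{0} (Cardinal.mk ι) = Cardinal.lift.{u} (Cardinal.mk (Fin n)) := by
    rw [h1]
    simp
  obtain ⟨e⟩ := Cardinal.lift_mk_eq'.1 h2
  refine ⟨?_, z ∘ e.symm, (isTranscendenceBasis_equiv e.symm).2 hz⟩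
  rw [← hz.cardinalMk_eq_trdeg, h1]

/-- derivations of the fixed field with nonzero Jacobian determinant -/
theorem exists_det (K : IntermediateField k L) [Algebra.IsAlgebraic K L] (n : ℕ)
    (z : Fin n → K) (hz : IsTranscendenceBasis k z) (x : Fin n → L)
    (hx : IsTranscendenceBasis k x)
    (ext : Derivation k K K → Derivation k L L)
    (hext : ∀ (D : Derivation k K K) (f : K), ext D (algebraMap K L f) = algebraMap K L (D f)) :
    ∃ D : Fin n → Derivation k K K, (Matrix.of fun i j => ext (D j) (x i)).det ≠ 0 := by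
  classical
  choose D hD using fun j => exists_dual z hz j
  refine ⟨D, ?_⟩
  intro hdet
  obtain ⟨v, hv0, hv⟩ := Matrix.exists_mulVec_eq_zero_iff.2 hdet
  apply hv0
  have hd0 : ∀ f, (∑ j, v j • ext (D j)) f = 0 := by
    refine der_zero _ x hx fun i => ?_
    rw [der_sum]
    have := congrFun hv i
    simp only [Matrix.mulVec, dotProduct, Matrix.of_apply, Pi.zero_apply] at this
    rw [← this]
    exact Finset.sum_congr rfl fun j _ => mul_comm _ _
  funext l
  have h3 := hd0 (algebraMap K L (z l))
  rw [der_sum] at h3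
  have h4 : ∀ j, ext (D j) (algebraMap K L (z l)) = if l = j then 1 else 0 := by
    intro j
    rw [hext, hD j l]
    by_cases hlj : l = j
    · rw [if_pos hlj, if_pos hlj, map_one]
    · rw [if_neg hlj, if_neg hlj, map_zero]
  simp only [h4, mul_ite, mul_one, mul_zero, Finset.sum_ite_eq, Finset.mem_univ, if_true] at h3
  exact h3

theorem main (h1 : S_EXT.{u, v}) (h2 : S_REG2.{u, v}) : S_EFF2.{u, v} := by
  classical
  intro k L _ _ _ _ _ d n F hF G _ σ hn hG N m hN hfree hm x b hxQ hxt hxg hbQ hb0 hgood y a ha0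
    hY hbasis
  have halgK := alg_fixed G
  have := Fintype.ofFinite G
  obtain ⟨hnK, z, hz⟩ := exists_basis (fixedField G) (d + n) hn
  choose ext hext hext2 hext3 using h1 k (fixedField G) L (d + n) hnK
  obtain ⟨D0, hD0⟩ := exists_det (fixedField G) (d + n) z hz (Fin.append y x) hbasis ext hext
  have hfix : ∀ (g : G) (f : fixedField G), (g : L ≃ₐ[k] L) (algebraMap (fixedField G) L f) =
      algebraMap (fixedField G) L f := fun g f => f.2 g
  let V : (Fin (d + n) → Derivation k (fixedField G) (fixedField G)) → L := fun D =>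
    a * (∏ i, b i) *
      (Matrix.of fun i j => ext (D j) ((Fin.append y x : Fin (d + n) → L) i)).det ^ m
  let P : (Fin (d + n) → Derivation k (fixedField G) (fixedField G)) → L := fun D =>
    ∏ g : G, (g : L ≃ₐ[k] L) (V D)
  have hP : ∀ D (h : G), (h : L ≃ₐ[k] L) (P D) = P D := by
    intro D h
    change (h : L ≃ₐ[k] L) (∏ g : G, (g : L ≃ₐ[k] L) (V D)) = ∏ g : G, (g : L ≃ₐ[k] L) (V D)
    rw [map_prod]
    exact Fintype.prod_equiv (Equiv.mulLeft h) _ _ (fun g => rfl)
  have hVlin : ∀ (A : Matrix (Fin (d + n)) (Fin (d + n)) (fixedField G))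
      (D : Fin (d + n) → Derivation k (fixedField G) (fixedField G)),
      V (fun i => ∑ j, A i j • D j) = V D * (algebraMap (fixedField G) L A.det) ^ m := by
    intro A D
    have e1 : ∀ j, ext (∑ l, A j l • D l) = ∑ l, (algebraMap (fixedField G) L (A j l)) •
        ext (D l) := by
      intro j
      symm
      apply hext2
      intro f
      rw [der_sum, der_sum, map_sum]
      refine Finset.sum_congr rfl fun l _ => ?_
      rw [hext, map_mul]
    have e2 : (Matrix.of fun i j => ext (∑ l, A j l • D l)
        ((Fin.append y x : Fin (d + n) → L) i)) =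
        (Matrix.of fun i j => ext (D j) ((Fin.append y x : Fin (d + n) → L) i)) *
          (A.map (algebraMap (fixedField G) L)).transpose := by
      ext i j
      simp only [Matrix.of_apply, Matrix.mul_apply, Matrix.transpose_apply, Matrix.map_apply]
      rw [e1, der_sum]
      exact Finset.sum_congr rfl fun l _ => mul_comm _ _
    have e3 : (A.map (algebraMap (fixedField G) L)).det = algebraMap (fixedField G) L A.det := by
      rw [RingHom.map_det]
      rfl
    change a * (∏ i, b i) * (Matrix.of fun i j => ext (∑ l, A j l • D l)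
        ((Fin.append y x : Fin (d + n) → L) i)).det ^ m = _
    rw [e2, Matrix.det_mul, Matrix.det_transpose, e3, mul_pow]
    change _ = a * (∏ i, b i) *
      (Matrix.of fun i j => ext (D j) ((Fin.append y x : Fin (d + n) → L) i)).det ^ m * _
    ring
  have hPlin : ∀ (A : Matrix (Fin (d + n)) (Fin (d + n)) (fixedField G))
      (D : Fin (d + n) → Derivation k (fixedField G) (fixedField G)),
      P (fun i => ∑ j, A i j • D j) =
        (algebraMap (fixedField G) L A.det) ^ (m * Nat.card G) * P D := by
    intro A D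
    change ∏ g : G, (g : L ≃ₐ[k] L) (V (fun i => ∑ j, A i j • D j)) = _
    rw [hVlin]
    have e1 : ∀ g : G, (g : L ≃ₐ[k] L) (V D * (algebraMap (fixedField G) L A.det) ^ m) =
        (g : L ≃ₐ[k] L) (V D) * (algebraMap (fixedField G) L A.det) ^ m := by
      intro g
      rw [map_mul, map_pow, hfix]
    simp only [e1]
    rw [Finset.prod_mul_distrib, Finset.prod_const, Finset.card_univ, ← Nat.card_eq_fintype_card,
      ← pow_mul, mul_comm]
  have hcard : 1 ≤ Nat.card G := Nat.card_pos
  refine ⟨m * Nat.card G, Nat.mul_pos hm hcard, fun D => ⟨P D, fun g => hP D g⟩, ⟨?_, ?_, ?_⟩,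
    D0, ?_⟩
  · intro A D
    apply Subtype.ext
    change P (fun i => ∑ j, A i j • D j) = algebraMap (fixedField G) L (A.det ^ (m * Nat.card G) *
      ⟨P D, fun g => hP D g⟩)
    rw [hPlin, map_mul, map_pow]
    rfl
  · intro v hv _ D hD
    apply dom_of_reg
    obtain ⟨w, e, hwv, hreg⟩ := h2 k L d n F G σ hn hG N hN hfree x hxQ hxt hxg v hv
    rw [← hwv.reg]
    change Ge w 0 (∏ g : G, (g : L ≃ₐ[k] L) (V D))
    apply ge_prod0
    intro g _
    exact hreg m b hbQ hb0 hgood y a hY D (fun j => ext (D j)) hD (fun j f => hext (D j) f) g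
  · intro v _ hv
    exact hv.elim
  · intro h0
    have h3 : P D0 = 0 := congrArg (fun z : fixedField G => (z : L)) h0
    have h4 : V D0 ≠ 0 :=
      mul_ne_zero (mul_ne_zero ha0 (Finset.prod_ne_zero_iff.2 fun i _ => hb0 i))
        (pow_ne_zero _ hD0)
    have h5 : P D0 ≠ 0 := Finset.prod_ne_zero_iff.2 fun g _ => by
      rw [Ne, map_eq_zero_iff _ (g : L ≃ₐ[k] L).injective]
      exact h4
    exact h5 h3

end main

end Pool.Agent.W721.PG.EFF2
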