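import Pool.Agent.W619.Y.Stm2

/-! The canonical divisor of a ruled variety is not pseudo-effective (part RULED of project PG). -/

set_option autoImplicit false
set_option linter.overlappingInstances false
set_option linter.unusedSectionVars false

universe u v

open FF IntermediateField Polynomial IsDedekindDomain Pool.Agent.W619.PQ Pool.Agent.W619.PL
  Pool.Agent.W619.TW Pool.Agent.W603.LV Pool.Agent.W619.Y

namespace Pool.Agent.W721.PG.RULED

section places

variable {k : Type*} {L : Type*} [Field k] [Field L] [Algebra k L] {B : Type*} [CommRing B]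
  [IsDedekindDomain B] [Algebra k B] [Algebra B L] [IsFractionRing B L] [IsScalarTower k B L]

theorem pres_placeOf (P : HeightOneSpectrum B) (D : Derivation k L L)
    (hD : ∀ b : B, ∃ c : B, D (algebraMap B L b) = algebraMap B L c) :
    Pres (placeOf (k := k) (L := L) P) D := by
  intro f hf
  by_cases hf0 : f = 0
  · left; rw [hf0, map_zero]
  obtain ⟨n, d, h⟩ := P.exists_primeCompl_mul_eq_of_integer f
    ((placeOf_nonneg (k := k) P hf0).1 ((Place.reg_iff _ hf0).1 hf))
  have hd : ¬ (placeOf (k := k) (L := L) P).red (algebraMap B L d) = 0 := by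
    rw [placeOf_red_eq_zero]; exact d.2
  rw [Place.red_eq_zero_iff _ (placeOf_reg P _)] at hd
  push Not at hd
  obtain ⟨c1, hc1⟩ := hD n
  obtain ⟨c2, hc2⟩ := hD d
  have e : D f = (algebraMap B L c1 - f * algebraMap B L c2) * (algebraMap B L d)⁻¹ := by
    rw [eq_mul_inv_iff_mul_eq₀ hd.1, ← hc1, ← hc2, ← h, D.leibniz]
    simp only [smul_eq_mul]
    ring
  rw [e]
  apply Place.reg_mul
  · rw [sub_eq_add_neg]
    exact Place.reg_add _ (placeOf_reg P c1)
      (Place.reg_neg _ (Place.reg_mul _ hf (placeOf_reg P c2)))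
  · right
    rw [Place.ord_inv]
    have := hd.2
    omega

end places

section tau

variable {k : Type*} {L : Type*} [Field k] [Field L] [Algebra k L] (M : IntermediateField k L)
  (τ : L)

/-- the properties of the places of `M(τ)` which are finite with respect to `τ` -/
structure PP (w : Place k L) : Prop where
  reg : ∀ p : M[X], w.Reg (aeval τ p)
  con : ∀ m : M, m ≠ 0 → w.ord (m : L) = 0
  pres : ∀ D : Derivation k L L, (∀ p : M[X], ∃ q : M[X], D (aeval τ p) = aeval τ q) → Pres w D

variable {M τ}

theorem places (hτ : Transcendental M τ) (htop : IntermediateField.adjoin M {τ} = ⊤) :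
    (∀ f : L, (∀ p : M[X], aeval τ p ≠ f) → ∃ w : Place k L, PP M τ w ∧ ¬ w.Reg f) ∧
    (∃ w : Place k L, PP M τ w ∧ 0 < w.ord τ) ∧
    IsTranscendenceBasis M (fun _ : Unit => τ) ∧
    ∀ s : L, ∃ a b : M[X], b ≠ 0 ∧ s * aeval τ b = aeval τ a := by
  let i1 : Algebra M[X] L := (aeval τ : M[X] →ₐ[M] L).toRingHom.toAlgebra
  have hmap : ∀ p : M[X], algebraMap M[X] L p = aeval τ p := fun p => rfl
  have hinj : Function.Injective (algebraMap M[X] L) := by
    intro p q hpq
    exact transcendental_iff_injective.1 hτ hpq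
  have i2 : FaithfulSMul M[X] L := (faithfulSMul_iff_algebraMap_injective _ _).2 hinj
  have hsurj : ∀ z : L, ∃ x y : M[X], z = algebraMap M[X] L x / algebraMap M[X] L y := by
    intro z
    have hz : z ∈ IntermediateField.adjoin M {τ} := by rw [htop]; trivial
    exact (IntermediateField.mem_adjoin_simple_iff M z).1 hz
  have i3 : IsFractionRing M[X] L := IsFractionRing.of_field M[X] L hsurj
  have i4 : IsScalarTower M M[X] L := IsScalarTower.of_algebraMap_eq fun m => by
    rw [hmap]
    simp
  have i5 : IsScalarTower k M[X] L := IsScalarTower.of_algebraMap_eq fun c => by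
    rw [hmap, IsScalarTower.algebraMap_apply k M M[X]]
    simp
  have hPP : ∀ P : HeightOneSpectrum M[X], PP M τ (placeOf (k := k) (L := L) P) := by
    intro P
    refine ⟨fun p => placeOf_reg P p, ?_, ?_⟩
    · intro m hm
      exact (placeOf (k := M) (L := L) P).ord_const hm
    · intro D hD
      exact pres_placeOf P D hD
  refine ⟨?_, ?_, ?_, ?_⟩
  · intro f hf
    by_contra hcon
    push Not at hcon
    have hint : ∀ P : HeightOneSpectrum M[X], P.valuation L f ≤ 1 := by
      intro P
      by_cases hf0 : f = 0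
      · rw [hf0, map_zero]
        exact zero_le_one
      · have h1 := hcon _ (hPP P)
        rw [Place.reg_iff _ hf0, placeOf_nonneg P hf0] at h1
        exact h1
    obtain ⟨p, hp⟩ := HeightOneSpectrum.mem_integers_of_valuation_le_one L f hint
    exact hf p hp
  · have hX : Prime (X : M[X]) := Polynomial.prime_X
    let P : HeightOneSpectrum M[X] := ⟨Ideal.span {X}, (Ideal.span_singleton_prime hX.ne_zero).2 hX,
      by rw [Ne, Ideal.span_singleton_eq_bot]; exact hX.ne_zero⟩
    refine ⟨placeOf P, hPP P, ?_⟩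
    have hτ0 : τ ≠ 0 := by
      rintro rfl
      exact hτ isAlgebraic_zero
    rw [placeOf_pos P hτ0]
    have h1 := (P.valuation_lt_one_iff_mem (K := L) (X : M[X])).2 (Ideal.mem_span_singleton_self X)
    change P.valuation L (algebraMap M[X] L X) < 1 at h1
    rw [hmap, aeval_X] at h1
    exact h1
  · have h1 : IsTranscendenceBasis M (fun _ : Unit => (X : M[X])) :=
      IsTranscendenceBasis.polynomial Unit M
    have i6 : Algebra.IsAlgebraic M[X] L := by
      constructor
      intro z
      obtain ⟨x, y, rfl⟩ := hsurj z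
      rw [div_eq_mul_inv]
      exact (isAlgebraic_algebraMap x).mul (isAlgebraic_algebraMap y).inv
    have h2 : IsTranscendenceBasis M (algebraMap M[X] L ∘ fun _ : Unit => (X : M[X])) :=
      h1.algebraMap_comp
    have h3 : (algebraMap M[X] L ∘ fun _ : Unit => (X : M[X])) = fun _ : Unit => τ := by
      funext a
      simp [hmap]
    rw [h3] at h2
    exact h2
  · intro s
    obtain ⟨a, b, hab⟩ := hsurj s
    rw [hmap, hmap] at hab
    by_cases hb : b = 0
    · refine ⟨0, 1, one_ne_zero, ?_⟩
      rw [hab, hb]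
      simp
    · refine ⟨a, b, hb, ?_⟩
      have : aeval τ b ≠ 0 := by
        rw [Ne, ← hmap, map_eq_zero_iff _ hinj]
        exact hb
      rw [hab]
      field_simp

theorem der_poly (D : Derivation k L L) (hM : ∀ m : M, ∃ m' : M, D (m : L) = (m' : L))
    (hτ : ∃ c : M, D τ = (c : L)) (p : M[X]) : ∃ q : M[X], D (aeval τ p) = aeval τ q := by
  induction p using Polynomial.induction_on' with
  | add p q hp hq =>
    obtain ⟨a, ha⟩ := hp
    obtain ⟨b, hb⟩ := hq
    exact ⟨a + b, by rw [map_add, map_add, ha, hb, map_add]⟩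
  | monomial n a =>
    obtain ⟨a', ha'⟩ := hM a
    obtain ⟨c, hc⟩ := hτ
    refine ⟨monomial n a' + monomial (n - 1) ((n : M) * a * c), ?_⟩
    rw [aeval_monomial, map_add, aeval_monomial, aeval_monomial, D.leibniz, D.leibniz_pow]
    change (a : L) • n • τ ^ (n - 1) • D τ + τ ^ n • D (a : L) =
      (a' : L) * τ ^ n + (((n : M) * a * c : M) : L) * τ ^ (n - 1)
    rw [ha', hc]
    simp only [smul_eq_mul, nsmul_eq_mul]
    push_cast
    ring

/-- orders of polynomials at infinity -/
theorem ord_poly (w : Place k L) (hcon : ∀ m : M, m ≠ 0 → w.ord (m : L) = 0) (h : w.ord τ < 0)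
    (p : M[X]) (hp : p ≠ 0) : aeval τ p ≠ 0 ∧ w.ord (aeval τ p) = p.natDegree * w.ord τ := by
  have hτ0 : τ ≠ 0 := by
    rintro rfl
    rw [w.ord_zero] at h
    omega
  induction hn : p.natDegree using Nat.strong_induction_on generalizing p with
  | _ n ih =>
    have hlc : p.leadingCoeff ≠ 0 := leadingCoeff_ne_zero.2 hp
    have hlcL : ((p.leadingCoeff : M) : L) ≠ 0 := by
      intro h0
      apply hlc
      exact Subtype.ext h0
    have hmon : (p.leadingCoeff : L) * τ ^ n ≠ 0 := mul_ne_zero hlcL (pow_ne_zero _ hτ0)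
    have hmord : w.ord ((p.leadingCoeff : L) * τ ^ n) = n * w.ord τ := by
      rw [w.ord_mul hlcL (pow_ne_zero _ hτ0), hcon _ hlc, w.ord_pow, zero_add]
    have hsplit : aeval τ p = (p.leadingCoeff : L) * τ ^ n + aeval τ p.eraseLead := by
      conv_lhs => rw [← eraseLead_add_monomial_natDegree_leadingCoeff p]
      rw [map_add, aeval_monomial, hn, add_comm]
      rfl
    by_cases h0 : p.eraseLead = 0
    · rw [hsplit, h0, map_zero, add_zero]
      exact ⟨hmon, hmord⟩
    · have hlt : p.eraseLead.natDegree < n := by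
        rcases eraseLead_natDegree_lt_or_eraseLead_eq_zero p with h1 | h1
        · rw [← hn]; exact h1
        · exact absurd h1 h0
      obtain ⟨g0, g1⟩ := ih _ hlt p.eraseLead h0 rfl
      have h2 := w.ord_add_eq hmon g0 (by
        rw [hmord, g1]
        have h3 : (p.eraseLead.natDegree : ℤ) < n := by exact_mod_cast hlt
        nlinarith)
      rw [hsplit]
      exact ⟨h2.1, by rw [h2.2, hmord]⟩

/-- divisorial places -/
theorem divisorial {ι : Type*} (w : Place k L) (hcon : ∀ m : M, m ≠ 0 → w.ord (m : L) = 0)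
    (z : ι → M) (hz : AlgebraicIndependent k z) (n : ℕ) (e : Fin (n - 1) ≃ ι) :
    IsDivisorial w n := by
  refine ⟨fun l => ((z (e l) : M) : L), ?_⟩
  intro p hp
  have h1 : MvPolynomial.aeval (fun l => ((z (e l) : M) : L)) p =
      ((MvPolynomial.aeval (z ∘ e) p : M) : L) := by
    have h2 : (MvPolynomial.aeval (fun l => ((z (e l) : M) : L)) : MvPolynomial _ k →ₐ[k] L) =
        M.val.comp (MvPolynomial.aeval (z ∘ e)) := by
      apply MvPolynomial.algHom_ext
      intro i
      simp
    rw [h2]
    rfl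
  have h3 : (MvPolynomial.aeval (z ∘ e) p : M) ≠ 0 := by
    intro h0
    apply hp
    have h4 : AlgebraicIndependent k (z ∘ e) := hz.comp _ e.injective
    exact h4 (by rw [h0, map_zero])
  rw [h1]
  refine ⟨?_, hcon _ h3⟩
  intro h0
  exact h3 (Subtype.ext h0)

end tau

section main

variable {k : Type v} {L : Type u} [Field k] [CharZero k] [Field L] [Algebra k L]

theorem der_sum {ι : Type*} (s : Finset ι) (v : ι → L) (D : ι → Derivation k L L) (z : L) :
    (∑ j ∈ s, v j • D j) z = ∑ j ∈ s, v j * D j z := by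
  classical
  induction s using Finset.induction_on with
  | empty => simp
  | insert a s ha ih =>
    rw [Finset.sum_insert ha, Finset.sum_insert ha]
    change v a * D a z + (∑ j ∈ s, v j • D j) z = _
    rw [ih]

/-- a common denominator -/
theorem common {M : IntermediateField k L} {t : L}
    (hfr : ∀ s : L, ∃ a b : M[X], b ≠ 0 ∧ s * aeval t b = aeval t a) (S : Finset L) :
    ∃ A : M[X], A ≠ 0 ∧ ∀ s ∈ S, ∃ p : M[X], aeval t p = aeval t A * s := by
  classical
  induction S using Finset.induction_on with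
  | empty => exact ⟨1, one_ne_zero, by simp⟩
  | insert s S hs ih =>
    obtain ⟨A, hA, h⟩ := ih
    obtain ⟨a, b, hb, hab⟩ := hfr s
    refine ⟨A * b, mul_ne_zero hA hb, ?_⟩
    intro r hr
    rcases Finset.mem_insert.1 hr with rfl | hr
    · exact ⟨A * a, by rw [map_mul, map_mul, ← hab]; ring⟩
    · obtain ⟨p, hp⟩ := h r hr
      exact ⟨p * b, by rw [map_mul, map_mul, hp]; ring⟩

theorem main : S_RULED.{u, v} := by
  classical
  intro k L _ _ _ _ _ M t n hn ht htop hpsef
  obtain ⟨S, hS⟩ := hpsef
  have ht0 : t ≠ 0 := by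
    rintro rfl
    exact ht isAlgebraic_zero
  have hti : Transcendental M t⁻¹ := by
    intro h
    apply ht
    have := h.inv
    rwa [inv_inv] at this
  have htopi : IntermediateField.adjoin M {t⁻¹} = ⊤ := by
    rw [eq_top_iff, ← htop, IntermediateField.adjoin_le_iff]
    intro y hy
    rw [Set.mem_singleton_iff] at hy
    rw [hy]
    have h1 : t⁻¹ ∈ IntermediateField.adjoin M {t⁻¹} :=
      IntermediateField.mem_adjoin_simple_self M t⁻¹
    have h2 := inv_mem h1
    rwa [inv_inv] at h2
  obtain ⟨hpl, -, htb, hfr⟩ := places (k := k) ht htop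
  obtain ⟨-, ⟨w, hw, hwt⟩, -, -⟩ := places (k := k) hti htopi
  -- the transcendence bases
  obtain ⟨ι, z, hz⟩ := exists_isTranscendenceBasis' k M
  have hx' : IsTranscendenceBasis k (Sum.elim (fun _ : Unit => t) (algebraMap M L ∘ z)) :=
    hz.sumElim_comp htb
  have hcard : Nonempty (Fin n ≃ Unit ⊕ ι) := by
    have h1 := hx'.lift_cardinalMk_eq_trdeg
    rw [hn] at h1
    have h2 : Cardinal.lift.{u} (Cardinal.mk (Fin n)) = Cardinal.lift.{0} (Cardinal.mk (Unit ⊕ ι)) := by
      rw [Cardinal.mk_fin, Cardinal.lift_natCast]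
      have h3 : Cardinal.lift.{0} (Cardinal.mk (Unit ⊕ ι)) = Cardinal.mk (Unit ⊕ ι) :=
        Cardinal.lift_id'.{0, u} _
      rw [h3]
      have h4 : Cardinal.lift.{u} (Cardinal.mk (Unit ⊕ ι)) = Cardinal.lift.{u} ((n : ℕ) : Cardinal.{u}) := h1
      exact (Cardinal.lift_injective h4).symm
    exact Cardinal.lift_mk_eq'.1 h2
  obtain ⟨e⟩ := hcard
  have hfin : Finite (Unit ⊕ ι) := Finite.of_equiv _ e
  have hfinι : Finite ι := Finite.sum_right Unit
  have := Fintype.ofFinite ι
  have hcι : Fintype.card ι = n - 1 := by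
    have h1 := Fintype.card_congr e
    rw [Fintype.card_fin, Fintype.card_sum, Fintype.card_unit] at h1
    omega
  let e' : Fin (n - 1) ≃ ι := (Fintype.equivFinOfCardEq hcι).symm
  let x : Fin n → L := Sum.elim (fun _ : Unit => t) (algebraMap M L ∘ z) ∘ e
  have hx : IsTranscendenceBasis k x := (isTranscendenceBasis_equiv e).2 hx'
  choose E hE using fun j => exists_dual x hx j
  let i0 : Fin n := e.symm (Sum.inl ())
  have hxi0 : x i0 = t := by
    change Sum.elim (fun _ : Unit => t) (algebraMap M L ∘ z) (e (e.symm (Sum.inl ()))) = t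
    rw [Equiv.apply_symm_apply]
    rfl
  have hxl : ∀ l : ι, x (e.symm (Sum.inr l)) = (z l : L) := by
    intro l
    change Sum.elim (fun _ : Unit => t) (algebraMap M L ∘ z) (e (e.symm (Sum.inr l))) = _
    rw [Equiv.apply_symm_apply]
    rfl
  have hEt : ∀ j, E j t = if i0 = j then 1 else 0 := by
    intro j
    rw [← hE j i0, hxi0]
  have hEz : ∀ j l, E j (z l : L) = if e.symm (Sum.inr l) = j then 1 else 0 := by
    intro j l
    rw [← hE j, hxl]
  have hE0M : ∀ m : M, E i0 (m : L) = 0 := by
    intro m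
    have h1 := der_zero ((E i0).compAlgebraMap M) z hz (fun l => by
      change E i0 (algebraMap M L (z l)) = 0
      have := hEz i0 l
      rw [if_neg] at this
      · exact this
      · intro h
        have h2 : Sum.inr l = (Sum.inl () : Unit ⊕ ι) := e.symm.injective h
        cases h2) m
    exact h1
  have hEM : ∀ (j : Fin n) (m : M), ∃ m' : M, E j (m : L) = (m' : L) := by
    intro j m
    rcases he : e j with a | l
    · have hj : j = i0 := by
        change j = e.symm (Sum.inl ())
        rw [← e.symm_apply_apply j, he]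
      rw [hj]
      exact ⟨0, by rw [hE0M]; rfl⟩
    · have hj : j = e.symm (Sum.inr l) := by
        rw [← he, e.symm_apply_apply]
      obtain ⟨δ, hδ⟩ := exists_dual z hz l
      refine ⟨δ m, ?_⟩
      have h1 := der_zero ((E j).compAlgebraMap M - (Algebra.linearMap M L).compDer δ) z hz
        (fun l' => by
          change E j (algebraMap M L (z l')) - algebraMap M L (δ (z l')) = 0
          have h2 : E j (algebraMap M L (z l')) = if e.symm (Sum.inr l') = j then 1 else 0 :=
            hEz j l'
          rw [h2, hδ l', hj]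
          by_cases hl : l' = l
          · rw [hl, if_pos rfl, if_pos rfl, map_one, sub_self]
          · rw [if_neg hl, if_neg, map_zero, sub_self]
            intro h
            apply hl
            have h3 := e.symm.injective h
            exact Sum.inr_injective h3) m
      exact sub_eq_zero.1 h1
  have hEt' : ∀ j, ∃ c : M, E j t = (c : L) := by
    intro j
    rw [hEt]
    by_cases h : i0 = j
    · exact ⟨1, by rw [if_pos h]; rfl⟩
    · exact ⟨0, by rw [if_neg h]; rfl⟩
  obtain ⟨A, hA0, hA⟩ := common hfr S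
  have hwt' : w.ord t < 0 := by
    rw [w.ord_inv] at hwt
    omega
  have hAord := ord_poly w hw.con hwt' A hA0
  -- the choice of the multiple
  let C : ℤ := ∑ s ∈ S, |w.ord s| + |w.ord (aeval t A)|
  have hC : ∀ s ∈ S, |w.ord s| + |w.ord (aeval t A)| ≤ C := by
    intro s hs
    have h1 := Finset.single_le_sum (f := fun s => |w.ord s|) (fun i _ => abs_nonneg _) hs
    change |w.ord s| + |w.ord (aeval t A)| ≤ ∑ s ∈ S, |w.ord s| + |w.ord (aeval t A)|
    linarith
  obtain ⟨N, hN⟩ : ∃ N : ℕ, C < N := ⟨(C.toNat + 1), by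
    push_cast
    have := Int.self_le_toNat C
    omega⟩
  obtain ⟨j, hj, ω, ⟨hform, hreg, -⟩, D0, hD0⟩ := hS N
  have hdec : ∀ D : Derivation k L L, D = ∑ l, D (x l) • E l := by
    intro D
    ext f
    have h1 := der_zero (D - ∑ l, D (x l) • E l) x hx (fun i => by
      change D (x i) - (∑ l, D (x l) • E l) (x i) = 0
      rw [der_sum]
      simp only [hE]
      simp) f
    exact sub_eq_zero.1 h1
  have hfne : ω E ≠ 0 := by
    intro h0
    apply hD0
    have h1 := hform (Matrix.of fun i l => D0 i (x l)) E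
    have h2 : (fun i => ∑ l, (Matrix.of fun i l => D0 i (x l)) i l • E l) = D0 := by
      funext i
      exact (hdec (D0 i)).symm
    rw [h2, h0, mul_zero] at h1
    exact h1
  -- finite places
  have hpoly : ∃ p : M[X], aeval t p = ω E * (aeval t A) ^ j := by
    by_contra hcon
    push Not at hcon
    obtain ⟨w', hw', hnr⟩ := hpl _ hcon
    apply hnr
    have hdiv := divisorial w' hw'.con z hz.1 n e'
    have h1 := hreg w' hdiv (fun h => h) E (fun l => hw'.pres (E l) (fun p =>
      der_poly (E l) (hEM l) (hEt' l) p))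
    rcases h1 with h1 | ⟨s, hs, hs0, hle⟩
    · exact absurd h1 hfne
    · obtain ⟨p, hp⟩ := hA s hs
      have h2 : aeval t A * s ≠ 0 := mul_ne_zero hAord.1 hs0
      have h3 := (w'.reg_iff h2).1 (by rw [← hp]; exact hw'.reg p)
      rw [w'.ord_mul hAord.1 hs0] at h3
      right
      rw [w'.ord_mul hfne (pow_ne_zero _ hAord.1), w'.ord_pow]
      have h4 : (0 : ℤ) ≤ j := Int.natCast_nonneg j
      nlinarith
  obtain ⟨p, hp⟩ := hpoly
  have hp0 : p ≠ 0 := by
    rintro rfl
    rw [map_zero] at hp
    exact mul_ne_zero hfne (pow_ne_zero _ hAord.1) hp.symm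
  have hple : w.ord (ω E) + j * w.ord (aeval t A) ≤ 0 := by
    have h1 := (ord_poly w hw.con hwt' p hp0).2
    rw [hp, w.ord_mul hfne (pow_ne_zero _ hAord.1), w.ord_pow] at h1
    rw [h1]
    have h2 : (0 : ℤ) ≤ p.natDegree := Int.natCast_nonneg _
    nlinarith
  -- the place at infinity
  have hdiv := divisorial w hw.con z hz.1 n e'
  have h1 := hform (Matrix.diagonal fun i => if i = i0 then t ^ 2 else 1) E
  have h2 : (fun i => ∑ l, (Matrix.diagonal fun i => if i = i0 then t ^ 2 else 1) i l • E l) =
      fun i => (if i = i0 then t ^ 2 else 1) • E i := by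
    funext i
    rw [Finset.sum_eq_single i]
    · rw [Matrix.diagonal_apply_eq]
    · intro b _ hb
      rw [Matrix.diagonal_apply_ne _ hb.symm, zero_smul]
    · intro h
      exact absurd (Finset.mem_univ i) h
  rw [h2, Matrix.det_diagonal, Finset.prod_ite_eq' Finset.univ i0 (fun _ => t ^ 2),
    if_pos (Finset.mem_univ i0)] at h1
  have h3 := hreg w hdiv (fun h => h) (fun i => (if i = i0 then t ^ 2 else 1) • E i) (by
    intro l
    apply hw.pres
    intro p
    apply der_poly
    · intro m
      by_cases hl : l = i0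
      · refine ⟨0, ?_⟩
        rw [if_pos hl, hl]
        change t ^ 2 * E i0 (m : L) = _
        rw [hE0M, mul_zero]
        rfl
      · obtain ⟨m', hm'⟩ := hEM l m
        refine ⟨m', ?_⟩
        rw [if_neg hl, one_smul]
        exact hm'
    · by_cases hl : l = i0
      · refine ⟨-1, ?_⟩
        rw [if_pos hl, hl]
        change t ^ 2 * E i0 t⁻¹ = _
        rw [Derivation.leibniz_inv, hEt, if_pos rfl]
        simp only [smul_eq_mul]
        push_cast
        field_simp
      · refine ⟨0, ?_⟩
        rw [if_neg hl, one_smul, Derivation.leibniz_inv, hEt, if_neg (Ne.symm hl), smul_zero]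
        rfl)
  rw [h1] at h3
  have hne : (t ^ 2) ^ (j * N) * ω E ≠ 0 := mul_ne_zero (pow_ne_zero _ (pow_ne_zero _ ht0)) hfne
  rcases h3 with h3 | ⟨s, hs, hs0, hle⟩
  · exact hne h3
  · rw [w.ord_mul (pow_ne_zero _ (pow_ne_zero _ ht0)) hfne, w.ord_pow, w.ord_pow] at hle
    have h4 := hC s hs
    have h5 : -|w.ord s| ≤ w.ord s := neg_abs_le _
    have h6 : -|w.ord (aeval t A)| ≤ w.ord (aeval t A) := neg_abs_le _
    have hj' : (1 : ℤ) ≤ j := by exact_mod_cast hj
    have hN0 : (0 : ℤ) ≤ N := Int.natCast_nonneg _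
    push_cast at hle
    -- `j (ord s + ord A + 2 N) ≤ 0`
    have h7 : (j : ℤ) * (w.ord s + w.ord (aeval t A) + 2 * N) ≤ 0 := by
      have h8 : (j : ℤ) * N * (2 * w.ord t) ≤ (j : ℤ) * N * (-2) := by
        apply mul_le_mul_of_nonneg_left
        · omega
        · positivity
      nlinarith
    have h9 : 0 < w.ord s + w.ord (aeval t A) + 2 * N := by linarith
    nlinarith

end main

end Pool.Agent.W721.PG.RULED
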